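import Mathlib

namespace Pool.Agent.H.MP_924435_co

theorem win (L : ℕ) (c c' t t' : ℝ) : ∃ k : ℕ, L ≤ k ∧ k ≤ L + 19 ∧ ∃ A B : ℤ,
    t ≤ k / 4 + c - A ∧ k / 4 + c - A < t + 1 / 4 ∧
    t' ≤ k / 5 + c' - B ∧ k / 5 + c' - B < t' + 1 / 5 := by
  obtain ⟨u, hu⟩ : ∃ u, u = ⌈4 * (t - c)⌉ := ⟨_, rfl⟩
  obtain ⟨v, hv⟩ : ∃ v, v = ⌈5 * (t' - c')⌉ := ⟨_, rfl⟩
  have u1 := Int.le_ceil (4 * (t - c))
  have u2 := Int.ceil_lt_add_one (4 * (t - c))
  have v1 := Int.le_ceil (5 * (t' - c'))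
  have v2 := Int.ceil_lt_add_one (5 * (t' - c'))
  rw [← hu] at u1 u2
  rw [← hv] at v1 v2
  obtain ⟨k, k1, k2, A, B, hA, hB⟩ : ∃ k : ℕ, L ≤ k ∧ k ≤ L + 19 ∧ ∃ A B : ℤ,
      (k : ℤ) = u + 4 * A ∧ (k : ℤ) = v + 5 * B := by
    refine ⟨L + ((5 * u + 16 * v - L) % 20).toNat, by omega, by omega,
      (L + (5 * u + 16 * v - L) % 20 - u) / 4, (L + (5 * u + 16 * v - L) % 20 - v) / 5, ?_, ?_⟩ <;>
    omega
  have hA' : (k : ℝ) = u + 4 * A := by exact_mod_cast hA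
  have hB' : (k : ℝ) = v + 5 * B := by exact_mod_cast hB
  refine ⟨k, k1, k2, A, B, ?_, ?_, ?_, ?_⟩ <;> linarith

theorem key (K : ℕ) (hK : 939 ≤ K) (x y : ℕ → ℝ)
    (E : ∀ k : ℕ, 1 ≤ k → k ≤ K → ∀ a b : ℝ, 0 ≤ a → a < 1 → 0 ≤ b → b < 1 →
      ∃ n < k ^ 2, ⌊k * x n⌋ = ⌊k * a⌋ ∧ ⌊k * y n⌋ = ⌊k * b⌋)
    (U : ∀ k : ℕ, 1 ≤ k → k ≤ K → ∀ n < k ^ 2, ∀ m < k ^ 2, ⌊k * x n⌋ = ⌊k * x m⌋ →
      ⌊k * y n⌋ = ⌊k * y m⌋ → n = m) : False := by
  obtain ⟨n, n1, n2, x1, x2, y1, y2⟩ : ∃ n, 460 ^ 2 ≤ n ∧ n < 920 ^ 2 ∧ 1 / 4 ≤ x n ∧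
      x n < 1 / 4 + 1 / 460 ∧ 1 / 5 ≤ y n ∧ y n < 1 / 5 + 1 / 460 := by
    obtain ⟨n, n1, n2, n3⟩ := E 920 (by norm_num) (by omega) (230 / 920) (184 / 920)
      (by norm_num) (by norm_num) (by norm_num) (by norm_num)
    obtain ⟨m, m1, m2, m3⟩ := E 920 (by norm_num) (by omega) (231 / 920) (184 / 920)
      (by norm_num) (by norm_num) (by norm_num) (by norm_num)
    norm_num [Int.floor_eq_iff] at n2 n3 m2 m3
    by_cases hn : 460 ^ 2 ≤ n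
    · exact ⟨n, hn, n1, by linarith, by linarith, by linarith, by linarith⟩
    by_cases hm : 460 ^ 2 ≤ m
    · exact ⟨m, hm, m1, by linarith, by linarith, by linarith, by linarith⟩
    have := U 460 (by norm_num) (by omega) n (by omega) m (by omega)
      (by
        rw [(Int.floor_eq_iff (z := 115)).2 ⟨by push_cast; linarith, by push_cast; linarith⟩,
          (Int.floor_eq_iff (z := 115)).2 ⟨by push_cast; linarith, by push_cast; linarith⟩])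
      (by
        rw [(Int.floor_eq_iff (z := 92)).2 ⟨by push_cast; linarith, by push_cast; linarith⟩,
          (Int.floor_eq_iff (z := 92)).2 ⟨by push_cast; linarith, by push_cast; linarith⟩])
    subst this
    linarith
  obtain ⟨L, s1, s2, l1, l2⟩ : ∃ L : ℕ, (L + 19) ^ 2 ≤ n ∧ n < (L + 20) ^ 2 ∧ 441 ≤ L ∧
      L ≤ 900 := by
    have a := Nat.sqrt_le' n
    have b := Nat.lt_succ_sqrt' n
    have c : 460 ≤ n.sqrt := Nat.le_sqrt'.2 n1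
    have d : n.sqrt < 920 := Nat.sqrt_lt'.2 n2
    refine ⟨n.sqrt - 19, ?_, ?_, by omega, by omega⟩
    · rwa [show n.sqrt - 19 + 19 = n.sqrt by omega]
    · rwa [show n.sqrt - 19 + 20 = n.sqrt + 1 by omega]
  obtain ⟨δ, hδ⟩ : ∃ δ, x n = 1 / 4 + δ := ⟨x n - 1 / 4, by ring⟩
  obtain ⟨ε, hε⟩ : ∃ ε, y n = 1 / 5 + ε := ⟨y n - 1 / 5, by ring⟩
  have d0 : 0 ≤ δ := by linarith
  have d1 : δ < 1 / 460 := by linarith
  have e0 : 0 ≤ ε := by linarith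
  have e1 : ε < 1 / 460 := by linarith
  obtain ⟨k, k1, k2, A, B, a1, a2, b1, b2⟩ := win L ((L + 20) * δ) ((L + 20) * ε)
    (3 / 8 + 10 / 460) (2 / 5 + 10 / 460)
  have k1' : (L : ℝ) ≤ k := by exact_mod_cast k1
  have k2' : (k : ℝ) ≤ L + 19 := by exact_mod_cast k2
  have l1' : (441 : ℝ) ≤ L := by exact_mod_cast l1
  have p1 : 3 / 8 - 10 / 460 ≤ k * x n - A := by rw [hδ]; nlinarith
  have p2 : k * x n - A < 5 / 8 + 10 / 460 := by rw [hδ]; nlinarith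
  have q1 : 3 / 8 - 10 / 460 ≤ k * y n - B := by rw [hε]; nlinarith
  have q2 : k * y n - B < 5 / 8 + 10 / 460 := by rw [hε]; nlinarith
  obtain ⟨m, m1, m2, m3⟩ := E k (by omega) (by omega) (x n) (y n) (by linarith) (by linarith)
    (by linarith) (by linarith)
  rw [(Int.floor_eq_iff (z := A) (a := k * x n)).2 ⟨by linarith, by linarith⟩,
    Int.floor_eq_iff] at m2
  rw [(Int.floor_eq_iff (z := B) (a := k * y n)).2 ⟨by linarith, by linarith⟩,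
    Int.floor_eq_iff] at m3
  have hk : k ^ 2 ≤ (L + 19) ^ 2 := Nat.pow_le_pow_left k2 2
  have gen : ∀ (j : ℕ) (C : ℤ) (z p t s r : ℝ), L + 20 ≤ j → j ≤ L + 20 + 19 →
      |k * p - k * z| ≤ 5 / 8 + 10 / 460 → t = (if z ≤ p then 0 else 3 / 4 - 19 / 460) →
      t ≤ s - C → s - C < t + 1 / 4 → j * z = s + r → 0 ≤ r → r ≤ 19 / 460 →
      ⌊j * z⌋ = ⌊j * p⌋ := by
    intro j C z p t s r j1 j2 h ht h1 h2 h3 r1 r2
    have j1' : (L : ℝ) + 20 ≤ j := by exact_mod_cast j1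
    have j2' : (j : ℝ) ≤ L + 20 + 19 := by exact_mod_cast j2
    have j3 : (j : ℝ) ≤ 480 / 441 * k := by linarith
    obtain ⟨g1, g2⟩ := abs_le.1 h
    split_ifs at ht with hz
    · have : j * (p - z) ≤ 480 / 441 * k * (p - z) :=
        mul_le_mul_of_nonneg_right j3 (by linarith)
      have : 0 ≤ j * (p - z) := mul_nonneg (by positivity) (by linarith)
      rw [(Int.floor_eq_iff (z := C)).2 ⟨by linarith, by linarith⟩,
        (Int.floor_eq_iff (z := C)).2 ⟨by linarith, by linarith⟩]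
    · have : j * (z - p) ≤ 480 / 441 * k * (z - p) :=
        mul_le_mul_of_nonneg_right j3 (by linarith)
      have : 0 ≤ j * (z - p) := mul_nonneg (by positivity) (by linarith)
      rw [(Int.floor_eq_iff (z := C)).2 ⟨by linarith, by linarith⟩,
        (Int.floor_eq_iff (z := C)).2 ⟨by linarith, by linarith⟩]
  obtain ⟨j, j1, j2, C, D, c1, c2, f1, f2⟩ := win (L + 20) ((L + 20) * δ) ((L + 20) * ε)
    (if x n ≤ x m then 0 else 3 / 4 - 19 / 460) (if y n ≤ y m then 0 else 3 / 4 - 19 / 460)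
  have j1' : (L : ℝ) + 20 ≤ j := by exact_mod_cast j1
  have j2' : (j : ℝ) ≤ L + 20 + 19 := by exact_mod_cast j2
  have hj : (L + 20) ^ 2 ≤ j ^ 2 := Nat.pow_le_pow_left j1 2
  have := U j (by omega) (by omega) n (by omega) m (by omega)
    (gen j C (x n) (x m) _ _ ((j - (L + 20)) * δ) j1 j2
      (abs_le.2 ⟨by linarith, by linarith⟩) rfl c1 c2 (by rw [hδ]; ring)
      (by nlinarith) (by nlinarith))
    (gen j D (y n) (y m) _ _ ((j - (L + 20)) * ε) j1 j2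
      (abs_le.2 ⟨by linarith, by linarith⟩) rfl f1 (by linarith) (by rw [hε]; ring)
      (by nlinarith) (by nlinarith))
  omega

end Pool.Agent.H.MP_924435_co
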